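import Pool.Agent.Y343.MC.Main

/-!
# Malcev coherence: extensions, locality, and products with locally virtually nilpotent groups

The question asks whether `F × H` is Malcev coherent for virtually free `F` and virtually abelian
(virtually nilpotent) `H`. We show this for every Malcev coherent group `F` and every locally
virtually nilpotent group `H`, as a consequence of closure properties of the class of all Malcev
coherent groups.
-/

set_option autoImplicit false

namespace Pool.Agent.Results.MP_62749c_al.ClosureProperties

open Pool.Agent.Helper45 Pool.Agent.Y343.MC

universe u v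

/-- **Closure properties of the class of Malcev coherent groups.**

(1) If `F` is Malcev coherent and every finitely generated subgroup of `H` is virtually nilpotent,
then `F × H` is Malcev coherent.

(2) Let `π : G → G'` be a homomorphism to a Malcev coherent group such that some normal subgroup
`C` of finite index of `G` centralises the kernel of `π`. Then `G` is Malcev coherent.

(3) If the kernel of `π : G → G'` is finite and `G'` is Malcev coherent, then so is `G`.

(4) Let `N` and `C` be normal subgroups of `G`, `C` of finite index, with `[N, C, ..., C] = 1`
(`c` times). If `G / N` is Malcev coherent, for example virtually free, then so is `G`.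

(5) Malcev coherence is a local property: `G` is Malcev coherent if and only if all its finitely
generated subgroups are.

(6) If every finitely generated subgroup of `F` is virtually free and every finitely generated
subgroup of `H` is virtually nilpotent, then `F × H` is Malcev coherent.

(7) The question: `F × H` is Malcev coherent for virtually free `F` and virtually nilpotent `H`. -/
theorem result :
    (∀ (F : Type u) (H : Type v) [Group F] [Group H], MalcevCoherent F →
      (∀ S : Subgroup H, S.FG → VNil S) → MalcevCoherent (F × H)) ∧
    (∀ (G : Type u) (G' : Type v) [Group G] [Group G'] (π : G →* G') (C : Subgroup G),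
      C.Normal → C.FiniteIndex → (∀ x ∈ π.ker, ∀ c ∈ C, x * c = c * x) →
      MalcevCoherent G' → MalcevCoherent G) ∧
    (∀ (G : Type u) (G' : Type v) [Group G] [Group G'] (π : G →* G'), Finite π.ker →
      MalcevCoherent G' → MalcevCoherent G) ∧
    (∀ (G : Type u) [Group G] (N C : Subgroup G) [N.Normal] (c : ℕ), C.Normal → C.FiniteIndex →
      comIter N C c = ⊥ → (MalcevCoherent (G ⧸ N) ∨ VFree (G ⧸ N)) → MalcevCoherent G) ∧
    (∀ (G : Type u) [Group G],
      MalcevCoherent G ↔ ∀ S : Subgroup G, S.FG → MalcevCoherent S) ∧
    (∀ (F : Type u) (H : Type v) [Group F] [Group H], (∀ S : Subgroup F, S.FG → VFree S) →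
      (∀ S : Subgroup H, S.FG → VNil S) → MalcevCoherent (F × H)) ∧
    (∀ (F : Type u) (H : Type v) [Group F] [Group H], VFree F → VNil H →
      MalcevCoherent (F × H)) := by
  have hvf : ∀ (F : Type u) [Group F], VFree F → MalcevCoherent F := by
    intro F _ hF
    obtain ⟨K, hK, hfree⟩ := hF
    exact malcevCoherent_of_FR (FR_of_Tri (Tri_of_virtuallyFree K hfree))
  refine ⟨?_, ?_, ?_, ?_, ?_, ?_, ?_⟩
  · intro F H _ _ hF hH
    exact mc_prod F H hF hH
  · intro G G' _ _ π C hC hCi hcomm h
    exact mc_of_hom π C hcomm h
  · intro G G' _ _ π hfin h
    exact mc_of_finite_ker π h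
  · intro G _ N C _ c hC hCi hcom h
    exact mc_hypercentral c N C hcom (h.elim id (hvf _))
  · intro G _
    exact ⟨fun h S _ => mc_of_injective S.subtype Subtype.val_injective h, mc_of_local⟩
  · intro F H _ _ hF hH
    exact mc_prod F H (mc_locally_vfree F hF) hH
  · intro F H _ _ hF hH
    exact mc_prod_vnil F H (hvf F hF) hH

end Pool.Agent.Results.MP_62749c_al.ClosureProperties
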